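import Mathlib
import Pool.Agent.W2helper65.Tern

/-!
# MP_fb76f8_nt: the numbers `T_x + T_y + 6 T_z`

`n` is represented if and only if `N = n + 1` satisfies `8 N = X^2 + Y^2 + 6 Z^2` with `X, Y, Z` odd. This is the
same as `N = w^2 + h` with `h = a^2 + ab + b^2` odd.  The form `w^2 + a^2 + ab + b^2` represents all `N` which are
not of the form `9^k (9m+6)` (Legendre's theorem with an auxiliary prime, and the descent of Davenport and
Cassels), and reflections in vectors of norm two make `h` odd.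
-/

set_option autoImplicit false

namespace Pool.Agent.Results.MP_fb76f8_nt.TriangularOneOneSix

open Pool.Agent.W2helper65.Tern

/-- `n = x(x-1)/2 + y(y-1)/2 + 6 z(z-1)/2` for some integers `x, y, z` -/
def Represented (n : ℕ) : Prop :=
  ∃ x y z : ℤ, (n : ℤ) = x * (x - 1) / 2 + y * (y - 1) / 2 + 6 * (z * (z - 1) / 2)

/-- `n ≢ 2 · 3^(2r-1) - 1 (mod 3^(2r))` for every integer `r ≥ 1` -/
def Admissible (n : ℕ) : Prop := ∀ r : ℕ, 1 ≤ r → ¬ (n : ℤ) ≡ 2 * 3 ^ (2 * r - 1) - 1 [ZMOD 3 ^ (2 * r)]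

lemma tri (x : ℤ) : 8 * (x * (x - 1) / 2) = (2 * x - 1) ^ 2 - 1 := by
  have h : 2 ∣ x * (x - 1) := by
    rcases Int.emod_two_eq_zero_or_one x with h | h
    · exact Dvd.dvd.mul_right (by omega) _
    · exact Dvd.dvd.mul_left (by omega) _
  obtain ⟨k, hk⟩ := h
  rw [hk, Int.mul_ediv_cancel_left k (by norm_num)]
  linear_combination (-4 : ℤ) * hk

lemma represented_iff (n : ℕ) : Represented n ↔
    ∃ u v z : ℤ, z % 2 ≠ 0 ∧ u ^ 2 + v ^ 2 + 3 * z ^ 2 = 4 * ((n : ℤ) + 1) := by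
  constructor
  · rintro ⟨x, y, z, h⟩
    refine ⟨x + y - 1, x - y, 2 * z - 1, by omega, ?_⟩
    have h1 := tri x
    have h2 := tri y
    have h3 := tri z
    have h4 : 8 * (n : ℤ) = (2 * x - 1) ^ 2 - 1 + ((2 * y - 1) ^ 2 - 1) + 6 * ((2 * z - 1) ^ 2 - 1) := by
      rw [← h1, ← h2, ← h3, h]; ring
    have h5 : 2 * ((x + y - 1) ^ 2 + (x - y) ^ 2 + 3 * (2 * z - 1) ^ 2) = 2 * (4 * ((n : ℤ) + 1)) := by
      linear_combination (-1 : ℤ) * h4
    linarith
  · rintro ⟨u, v, z, hz, h⟩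
    -- exactly one of `u`, `v` is odd
    have sq4 : ∀ c : ℤ, (c % 2 = 0 ∧ c ^ 2 % 4 = 0) ∨ (c % 2 = 1 ∧ c ^ 2 % 4 = 1) := by
      intro c
      rcases Int.emod_two_eq_zero_or_one c with hc | hc
      · left; refine ⟨hc, ?_⟩
        obtain ⟨k, rfl⟩ : ∃ k, c = 2 * k := ⟨c / 2, by omega⟩
        have : (2 * k) ^ 2 = 4 * (k ^ 2) := by ring
        omega
      · right; refine ⟨hc, ?_⟩
        obtain ⟨k, rfl⟩ : ∃ k, c = 2 * k + 1 := ⟨c / 2, by omega⟩
        have : (2 * k + 1) ^ 2 = 4 * (k ^ 2 + k) + 1 := by ring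
        omega
    have huv : (u + v) % 2 = 1 := by
      rcases sq4 u with ⟨h1, h2⟩ | ⟨h1, h2⟩ <;> rcases sq4 v with ⟨h3, h4⟩ | ⟨h3, h4⟩ <;>
        rcases sq4 z with ⟨h5, h6⟩ | ⟨h5, h6⟩ <;> omega
    obtain ⟨x, hx⟩ : ∃ x, u + v = 2 * x - 1 := ⟨(u + v + 1) / 2, by omega⟩
    obtain ⟨y, hy⟩ : ∃ y, u - v = 2 * y - 1 := ⟨(u - v + 1) / 2, by omega⟩
    obtain ⟨c, hc⟩ : ∃ c, z = 2 * c - 1 := ⟨(z + 1) / 2, by omega⟩
    refine ⟨x, y, c, ?_⟩
    have h1 := tri x
    have h2 := tri y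
    have h3 := tri c
    rw [← hx] at h1
    rw [← hy] at h2
    rw [← hc] at h3
    have h4 : 8 * (n : ℤ) = 8 * (x * (x - 1) / 2 + y * (y - 1) / 2 + 6 * (c * (c - 1) / 2)) := by
      linear_combination (-1 : ℤ) * h1 - h2 - 6 * h3 - 2 * h
    linarith

lemma admissible_iff (n : ℕ) : Admissible n ↔ Adm (n + 1) := by
  constructor
  · intro h k m hk
    apply h (k + 1) (by omega)
    rw [Int.modEq_iff_dvd]
    refine ⟨-(m : ℤ), ?_⟩
    have h1 : ((n : ℤ) + 1) = 9 ^ k * (9 * m + 6) := by exact_mod_cast hk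
    have h2 : 2 * (k + 1) - 1 = 2 * k + 1 := by omega
    rw [h2, pow_succ, show 2 * (k + 1) = 2 * k + 2 by ring, pow_add, pow_mul]
    norm_num
    linear_combination (-1 : ℤ) * h1
  · intro h r hr hmod
    obtain ⟨k, rfl⟩ : ∃ k, r = k + 1 := ⟨r - 1, by omega⟩
    rw [Int.modEq_iff_dvd] at hmod
    obtain ⟨c, hc⟩ := hmod
    have h2 : 2 * (k + 1) - 1 = 2 * k + 1 := by omega
    rw [h2, pow_succ, show 2 * (k + 1) = 2 * k + 2 by ring, pow_add, pow_mul] at hc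
    norm_num at hc
    have h1 : ((n : ℤ) + 1) = 9 ^ k * (9 * (-c) + 6) := by linear_combination (-1 : ℤ) * hc
    have h3 : 0 < 9 * (-c) + 6 := by
      have h4 : (0 : ℤ) < 9 ^ k * (9 * (-c) + 6) := by rw [← h1]; positivity
      exact (mul_pos_iff_of_pos_left (by positivity)).1 h4
    obtain ⟨m, hm⟩ := Int.eq_ofNat_of_zero_le (show 0 ≤ -c by omega)
    apply h k m
    rw [hm] at h1
    exact_mod_cast h1

/-- **Q1.** For every `n ≥ 0`: `n` is a sum of two triangular numbers and six times a triangular number if and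
only if `n ≢ 2 · 3^(2r-1) - 1 (mod 3^(2r))` for all `r ≥ 1`. -/
theorem result : ∀ n : ℕ, Represented n ↔ Admissible n := by
  intro n
  rw [admissible_iff, represented_iff]
  constructor
  · rintro ⟨u, v, z, -, h⟩ k m hk
    apply not_rep k (4 * m + 2) u v z
    rw [h]
    have h1 : ((n : ℤ) + 1) = 9 ^ k * (9 * m + 6) := by exact_mod_cast hk
    rw [h1]; push_cast; ring
  · intro h
    obtain ⟨w, a, b, hf, hab⟩ := rep_odd (n + 1) (by omega) h
    push_cast at hf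
    rcases Int.emod_two_eq_zero_or_one b with hb | hb
    · have ha : a % 2 ≠ 0 := by omega
      refine ⟨2 * w, 2 * b + a, a, ha, ?_⟩
      rw [← hf]; unfold f; ring
    · refine ⟨2 * w, 2 * a + b, b, by omega, ?_⟩
      rw [← hf]; unfold f; ring

end Pool.Agent.Results.MP_fb76f8_nt.TriangularOneOneSix
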